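import Pool.Agent.H923R2.FZ.Stubs2

/-!
Task ABSI of h923z_tasks: absorption of infinitely many copies of `C([0,1])`.
-/

set_option autoImplicit false

open scoped ComplexConjugate Topology
open Filter

noncomputable section

namespace Pool.Agent.H923R2.FZ.T_ABSI

open Pool.Agent.H923R2.FP Pool.Agent.H923R2.FZ

open Classical in
/-- an element of the algebra generated by the ranges can be followed -/
theorem absi_cont {J : Type} {D : J → Type} [∀ j, CStarAlgebra (D j)] {B : Type} [CStarAlgebra B]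
    (e : ∀ j, D j →⋆ₐ[ℂ] B) (i0 : J) (σ : D i0 →⋆ₐ[ℂ] B) (p : B)
    (hp : p ∈ StarAlgebra.adjoin ℂ (⋃ j, Set.range (Function.update e i0 σ j))) :
    ∀ η : ℝ, 0 < η → ∃ d : ℝ, 0 < d ∧ ∀ σ' : D i0 →⋆ₐ[ℂ] B, (∀ x, ‖σ' x - σ x‖ ≤ d * ‖x‖) →
      ∃ p' ∈ StarAlgebra.adjoin ℂ (⋃ j, Set.range (Function.update e i0 σ' j)),
        ‖p - p'‖ < η := by
  induction hp using StarAlgebra.adjoin_induction with
  | mem y hy =>
    intro η hη
    obtain ⟨j, hj⟩ := Set.mem_iUnion.1 hy
    obtain ⟨x, rfl⟩ := hj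
    by_cases h : j = i0
    · subst h
      have h1 : 0 < ‖x‖ + 1 := by positivity
      refine ⟨η / (2 * (‖x‖ + 1)), by positivity, fun σ' hσ' => ⟨σ' x, ?_, ?_⟩⟩
      · apply StarAlgebra.subset_adjoin
        refine Set.mem_iUnion.2 ⟨j, x, ?_⟩
        simp
      · have h2 := hσ' x
        rw [Function.update_self, norm_sub_rev]
        refine lt_of_le_of_lt h2 ?_
        have h3 : η / (2 * (‖x‖ + 1)) * ‖x‖ ≤ η / (2 * (‖x‖ + 1)) * (‖x‖ + 1) := by
          apply mul_le_mul_of_nonneg_left _ (by positivity)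
          linarith
        have h4 : η / (2 * (‖x‖ + 1)) * (‖x‖ + 1) = η / 2 := by
          field_simp
        rw [h4] at h3
        linarith
    · refine ⟨1, one_pos, fun σ' _ => ⟨e j x, ?_, ?_⟩⟩
      · apply StarAlgebra.subset_adjoin
        refine Set.mem_iUnion.2 ⟨j, x, ?_⟩
        rw [Function.update_of_ne h]
      · rw [Function.update_of_ne h, sub_self, norm_zero]
        exact hη
  | algebraMap r =>
    intro η hη
    exact ⟨1, one_pos, fun σ' _ => ⟨algebraMap ℂ B r, StarSubalgebra.algebraMap_mem _ r, by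
      rw [sub_self, norm_zero]; exact hη⟩⟩
  | add x y hx hy ihx ihy =>
    intro η hη
    obtain ⟨d1, hd1, h1⟩ := ihx (η / 2) (by positivity)
    obtain ⟨d2, hd2, h2⟩ := ihy (η / 2) (by positivity)
    refine ⟨min d1 d2, lt_min hd1 hd2, fun σ' hσ' => ?_⟩
    obtain ⟨x', hx', hxx⟩ := h1 σ' fun z => (hσ' z).trans
      (mul_le_mul_of_nonneg_right (min_le_left _ _) (norm_nonneg _))
    obtain ⟨y', hy', hyy⟩ := h2 σ' fun z => (hσ' z).trans
      (mul_le_mul_of_nonneg_right (min_le_right _ _) (norm_nonneg _))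
    refine ⟨x' + y', add_mem hx' hy', ?_⟩
    have h3 : x + y - (x' + y') = (x - x') + (y - y') := by abel
    rw [h3]
    have h4 := norm_add_le (x - x') (y - y')
    linarith
  | mul x y hx hy ihx ihy =>
    intro η hη
    have hX : 0 < ‖x‖ + 1 := by positivity
    have hY : 0 < ‖y‖ + 1 := by positivity
    obtain ⟨d2, hd2, h2⟩ := ihy (min 1 (η / (2 * (‖x‖ + 1)))) (lt_min one_pos (by positivity))
    obtain ⟨d1, hd1, h1⟩ := ihx (η / (2 * (‖y‖ + 1))) (by positivity)
    refine ⟨min d1 d2, lt_min hd1 hd2, fun σ' hσ' => ?_⟩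
    obtain ⟨x', hx', hxx⟩ := h1 σ' fun z => (hσ' z).trans
      (mul_le_mul_of_nonneg_right (min_le_left _ _) (norm_nonneg _))
    obtain ⟨y', hy', hyy⟩ := h2 σ' fun z => (hσ' z).trans
      (mul_le_mul_of_nonneg_right (min_le_right _ _) (norm_nonneg _))
    refine ⟨x' * y', mul_mem hx' hy', ?_⟩
    have h3 : x * y - x' * y' = x * (y - y') + (x - x') * y' := by noncomm_ring
    rw [h3]
    have h4 := norm_add_le (x * (y - y')) ((x - x') * y')
    have h5 := norm_mul_le x (y - y')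
    have h6 := norm_mul_le (x - x') y'
    have h7 : ‖y - y'‖ < η / (2 * (‖x‖ + 1)) := lt_of_lt_of_le hyy (min_le_right _ _)
    have h8 : ‖y - y'‖ < 1 := lt_of_lt_of_le hyy (min_le_left _ _)
    have h9 : ‖y'‖ ≤ ‖y‖ + 1 := by
      have h10 : ‖y'‖ ≤ ‖y‖ + ‖y' - y‖ := by
        have := norm_add_le y (y' - y)
        simpa using this
      rw [norm_sub_rev] at h10
      linarith
    have h11 : ‖x‖ * ‖y - y'‖ ≤ (‖x‖ + 1) * (η / (2 * (‖x‖ + 1))) :=
      mul_le_mul (by linarith) h7.le (norm_nonneg _) hX.le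
    have h12 : ‖x - x'‖ * ‖y'‖ ≤ ‖x - x'‖ * (‖y‖ + 1) :=
      mul_le_mul_of_nonneg_left h9 (norm_nonneg _)
    have h13 : ‖x - x'‖ * (‖y‖ + 1) < (η / (2 * (‖y‖ + 1))) * (‖y‖ + 1) :=
      mul_lt_mul_of_pos_right hxx hY
    have h14 : (‖x‖ + 1) * (η / (2 * (‖x‖ + 1))) = η / 2 := by field_simp
    have h15 : (η / (2 * (‖y‖ + 1))) * (‖y‖ + 1) = η / 2 := by field_simp
    rw [h14] at h11
    rw [h15] at h13
    linarith
  | star x hx ihx =>
    intro η hη
    obtain ⟨d, hd, h⟩ := ihx η hη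
    refine ⟨d, hd, fun σ' hσ' => ?_⟩
    obtain ⟨x', hx', hxx⟩ := h σ' hσ'
    refine ⟨star x', star_mem hx', ?_⟩
    rw [← star_sub, norm_star]
    exact hxx

open Classical in
/-- the distance condition -/
def absi_near {J : Type} {D : J → Type} [∀ j, CStarAlgebra (D j)] {B : Type} [CStarAlgebra B]
    (e : ∀ j, D j →⋆ₐ[ℂ] B) (i0 : J) (b : B) (η : ℝ) (σ : D i0 →⋆ₐ[ℂ] B) : Prop :=
  ∃ p ∈ StarAlgebra.adjoin ℂ (⋃ j, Set.range (Function.update e i0 σ j)), ‖b - p‖ < η

theorem absi_near_open {J : Type} {D : J → Type} [∀ j, CStarAlgebra (D j)] {B : Type}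
    [CStarAlgebra B] (e : ∀ j, D j →⋆ₐ[ℂ] B) (i0 : J) (b : B) (η : ℝ) (σ : D i0 →⋆ₐ[ℂ] B) :
    ∃ d : ℝ, 0 < d ∧ (absi_near e i0 b η σ → ∀ σ' : D i0 →⋆ₐ[ℂ] B,
      (∀ x, ‖σ' x - σ x‖ ≤ d * ‖x‖) → absi_near e i0 b η σ') := by
  by_cases h : absi_near e i0 b η σ
  · obtain ⟨p, hp, hbp⟩ := h
    obtain ⟨d, hd, h2⟩ := absi_cont e i0 σ p hp (η - ‖b - p‖) (by linarith)
    refine ⟨d, hd, fun _ σ' hσ' => ?_⟩
    obtain ⟨p', hp', hpp⟩ := h2 σ' hσ'
    refine ⟨p', hp', ?_⟩
    have h3 : b - p' = (b - p) + (p - p') := by abel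
    rw [h3]
    have h4 := norm_add_le (b - p) (p - p')
    linarith
  · exact ⟨1, one_pos, fun h' => absurd h' h⟩

/-- finitely many distance conditions at the same time -/
theorem absi_near_all {J : Type} {D : J → Type} [∀ j, CStarAlgebra (D j)] {B : Type}
    [CStarAlgebra B] (e : ∀ j, D j →⋆ₐ[ℂ] B) (i0 : J) (b : ℕ → B) (η : ℕ → ℝ)
    (σ : D i0 →⋆ₐ[ℂ] B) (S : Finset (ℕ × ℕ)) :
    ∃ d : ℝ, 0 < d ∧ ∀ p ∈ S, absi_near e i0 (b p.1) (η p.2) σ → ∀ σ' : D i0 →⋆ₐ[ℂ] B,
      (∀ x, ‖σ' x - σ x‖ ≤ d * ‖x‖) → absi_near e i0 (b p.1) (η p.2) σ' := by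
  classical
  induction S using Finset.induction_on with
  | empty => exact ⟨1, one_pos, by simp⟩
  | insert q S hq ih =>
    obtain ⟨d1, hd1, h1⟩ := ih
    obtain ⟨d2, hd2, h2⟩ := absi_near_open e i0 (b q.1) (η q.2) σ
    refine ⟨min d1 d2, lt_min hd1 hd2, fun p hp hn σ' hσ' => ?_⟩
    rcases Finset.mem_insert.1 hp with h | h
    · subst h
      exact h2 hn σ' fun z => (hσ' z).trans
        (mul_le_mul_of_nonneg_right (min_le_right _ _) (norm_nonneg _))
    · exact h1 p h hn σ' fun z => (hσ' z).trans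
        (mul_le_mul_of_nonneg_right (min_le_left _ _) (norm_nonneg _))

/-- pointwise limit of star homomorphisms -/
theorem absi_lim {A B : Type} [CStarAlgebra A] [CStarAlgebra B] (s : ℕ → (A →⋆ₐ[ℂ] B))
    (β : ℕ → ℝ) (hβ : ∀ m, 0 < β m) (hβ2 : ∀ m, β (m + 1) ≤ β m / 2)
    (hs : ∀ m x, ‖s (m + 1) x - s m x‖ ≤ β m / 2 * ‖x‖) :
    ∃ S : A →⋆ₐ[ℂ] B, (∀ x, Tendsto (fun m => s m x) atTop (𝓝 (S x))) ∧
      ∀ m x, ‖S x - s m x‖ ≤ β m * ‖x‖ := by
  have h1 : ∀ m l x, ‖s (m + l) x - s m x‖ ≤ (β m - β (m + l)) * ‖x‖ := by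
    intro m l x
    induction l with
    | zero => simp
    | succ l ih =>
      have h2 : s (m + (l + 1)) x - s m x
          = (s (m + l + 1) x - s (m + l) x) + (s (m + l) x - s m x) := by
        rw [← add_assoc]; abel
      rw [h2]
      have h3 := norm_add_le (s (m + l + 1) x - s (m + l) x) (s (m + l) x - s m x)
      have h4 := hs (m + l) x
      have h5 := hβ2 (m + l)
      have h6 : β (m + l) / 2 * ‖x‖ ≤ (β (m + l) - β (m + l + 1)) * ‖x‖ :=
        mul_le_mul_of_nonneg_right (by linarith) (norm_nonneg _)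
      rw [← add_assoc]
      nlinarith
  have h2 : ∀ m l x, m ≤ l → ‖s l x - s m x‖ ≤ β m * ‖x‖ := by
    intro m l x hml
    obtain ⟨k, rfl⟩ := Nat.exists_eq_add_of_le hml
    refine (h1 m k x).trans (mul_le_mul_of_nonneg_right ?_ (norm_nonneg _))
    have := hβ (m + k)
    linarith
  have h3 : ∀ m, β m ≤ β 0 * (1 / 2) ^ m := by
    intro m
    induction m with
    | zero => simp
    | succ m ih =>
      have := hβ2 m
      rw [pow_succ]
      nlinarith
  have h4 : Tendsto β atTop (𝓝 0) := by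
    have h5 : Tendsto (fun m : ℕ => β 0 * (1 / 2 : ℝ) ^ m) atTop (𝓝 (β 0 * 0)) :=
      (tendsto_pow_atTop_nhds_zero_of_lt_one (by norm_num) (by norm_num)).const_mul _
    rw [mul_zero] at h5
    exact squeeze_zero (fun m => (hβ m).le) h3 h5
  have h5 : ∀ x, ∃ y, Tendsto (fun m => s m x) atTop (𝓝 y) := by
    intro x
    apply cauchySeq_tendsto_of_complete
    refine cauchySeq_of_le_tendsto_0' (fun m => β m * ‖x‖) (fun n m hnm => ?_) ?_
    · rw [dist_eq_norm, norm_sub_rev]
      exact h2 n m x hnm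
    · have := h4.mul_const ‖x‖
      rwa [zero_mul] at this
  choose S hS using h5
  refine ⟨{ toFun := S
            map_one' := ?_
            map_mul' := ?_
            map_zero' := ?_
            map_add' := ?_
            commutes' := ?_
            map_star' := ?_ }, hS, ?_⟩
  · refine tendsto_nhds_unique (hS 1) ?_
    simp only [map_one]
    exact tendsto_const_nhds
  · intro x y
    refine tendsto_nhds_unique (hS (x * y)) ?_
    simp only [map_mul]
    exact (hS x).mul (hS y)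
  · refine tendsto_nhds_unique (hS 0) ?_
    simp only [map_zero]
    exact tendsto_const_nhds
  · intro x y
    refine tendsto_nhds_unique (hS (x + y)) ?_
    simp only [map_add]
    exact (hS x).add (hS y)
  · intro r
    refine tendsto_nhds_unique (hS (algebraMap ℂ A r)) ?_
    have h6 : ∀ m, s m (algebraMap ℂ A r) = algebraMap ℂ B r := fun m => AlgHomClass.commutes _ _
    simp only [h6]
    exact tendsto_const_nhds
  · intro x
    refine tendsto_nhds_unique (hS (star x)) ?_
    simp only [map_star]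
    exact (hS x).star
  · intro m x
    have h6 : Tendsto (fun l => ‖s l x - s m x‖) atTop (𝓝 ‖S x - s m x‖) :=
      ((hS x).sub_const _).norm
    refine le_of_tendsto h6 ?_
    filter_upwards [eventually_ge_atTop m] with l hl
    exact h2 m l x hl

/-- a trace is continuous -/
theorem absi_trc {B : Type} [CStarAlgebra B] {τ : B →ₗ[ℂ] ℂ} (h : FTS τ) : Continuous τ :=
  AddMonoidHomClass.continuous_of_bound τ 1 fun x => by rw [one_mul]; exact h.bound x

/-- elements near every element -/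
theorem absi_mem {B : Type} [CStarAlgebra B] (T : StarSubalgebra ℂ B) (y : B) :
    y ∈ T.topologicalClosure ↔ ∀ η : ℝ, 0 < η → ∃ p ∈ T, ‖y - p‖ < η := by
  rw [← SetLike.mem_coe, StarSubalgebra.topologicalClosure_coe, Metric.mem_closure_iff]
  constructor
  · intro h η hη
    obtain ⟨p, hp, h2⟩ := h η hη
    exact ⟨p, hp, by rwa [dist_eq_norm] at h2⟩
  · intro h η hη
    obtain ⟨p, hp, h2⟩ := h η hη
    exact ⟨p, hp, by rwa [dist_eq_norm]⟩

open Classical in
theorem t_ABSI (hABSIS : S_ABSIS) : S_ABSI := by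
  intro J _ D _ _ t i0 i1 hi c0 c1 hc0 hc1 B _ _ τ e f hR
  have hτ := hR.fts
  obtain ⟨b, hb⟩ : ∃ b : ℕ → B, DenseRange b := TopologicalSpace.exists_dense_seq B
  let S : ℕ → Finset (ℕ × ℕ) := fun m => Finset.range (m + 1) ×ˢ Finset.range (m + 1)
  let ηs : ℕ → ℝ := fun k => 1 / ((k : ℝ) + 1)
  let Inv : ℕ → (D i0 →⋆ₐ[ℂ] B) × ℝ → Prop := fun m s =>
    RFPw D t τ (Function.update e i0 s.1) (fun n => f (m + n)) ∧ 0 < s.2 ∧
    ∀ p ∈ S m, absi_near e i0 (b p.1) (ηs p.2) s.1 → ∀ σ' : D i0 →⋆ₐ[ℂ] B,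
      (∀ x, ‖σ' x - s.1 x‖ ≤ s.2 * ‖x‖) → absi_near e i0 (b p.1) (ηs p.2) σ'
  let Stp : ℕ → (D i0 →⋆ₐ[ℂ] B) × ℝ → (D i0 →⋆ₐ[ℂ] B) × ℝ → Prop := fun m s s' =>
    s'.2 ≤ s.2 / 2 ∧ (∀ x, ‖s'.1 x - s.1 x‖ ≤ s.2 / 2 * ‖x‖) ∧
    (∀ x, s.1 x ∈
      (StarAlgebra.adjoin ℂ (⋃ j, Set.range (Function.update e i0 s'.1 j))).topologicalClosure) ∧
    (∀ x, f m x ∈
      (StarAlgebra.adjoin ℂ (⋃ j, Set.range (Function.update e i0 s'.1 j))).topologicalClosure)
  have hstep : ∀ m s, Inv m s → ∃ s', Inv (m + 1) s' ∧ Stp m s s' := by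
    rintro m ⟨σ, β⟩ ⟨h1, h2, h3⟩
    obtain ⟨σ', h4, h5, h6, h7⟩ := hABSIS J D t i0 i1 hi c0 c1 hc0 hc1 B τ
      (Function.update e i0 σ) (fun n => f (m + n)) h1 (β / 2) (half_pos h2)
    rw [Function.update_idem] at h5 h6 h7
    rw [Function.update_self] at h4 h6
    obtain ⟨d, hd, h8⟩ := absi_near_all e i0 b ηs σ' (S (m + 1))
    refine ⟨(σ', min (β / 2) d), ⟨?_, lt_min (half_pos h2) hd, fun p hp hn σ'' hσ'' => ?_⟩,
      min_le_left _ _, h4, h6, ?_⟩
    · have h9 : (fun n => f (m + 1 + n)) = fun n => f (m + (n + 1)) := by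
        funext n
        congr 1
        omega
      rw [h9]
      exact h5
    · exact h8 p hp hn σ'' fun z => (hσ'' z).trans
        (mul_le_mul_of_nonneg_right (min_le_right _ _) (norm_nonneg _))
    · intro x
      exact h7 x
  obtain ⟨d0, hd0, h0⟩ := absi_near_all e i0 b ηs (e i0) (S 0)
  have hInv0 : Inv 0 (e i0, d0) := by
    refine ⟨?_, hd0, h0⟩
    simp only [Function.update_eq_self, zero_add]
    exact hR
  choose g hg using hstep
  let sq : (m : ℕ) → {s // Inv m s} := fun m =>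
    Nat.rec (motive := fun m => {s // Inv m s}) ⟨(e i0, d0), hInv0⟩
      (fun m s => ⟨g m s.1 s.2, (hg m s.1 s.2).1⟩) m
  let σ : ℕ → (D i0 →⋆ₐ[ℂ] B) := fun m => (sq m).1.1
  let β : ℕ → ℝ := fun m => (sq m).1.2
  have hI : ∀ m, Inv m (σ m, β m) := fun m => (sq m).2
  have hS : ∀ m, Stp m (σ m, β m) (σ (m + 1), β (m + 1)) := fun m =>
    (hg m (sq m).1 (sq m).2).2
  have hσ0 : σ 0 = e i0 := rfl
  obtain ⟨T, hT1, hT2⟩ := absi_lim σ β (fun m => (hI m).2.1) (fun m => (hS m).1)
    (fun m => (hS m).2.1)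
  have hlim : ∀ j x, Tendsto (fun m => Function.update e i0 (σ m) j x) atTop
      (𝓝 (Function.update e i0 T j x)) := by
    intro j x
    by_cases h : j = i0
    · subst h
      simp only [Function.update_self]
      exact hT1 x
    · simp only [Function.update_of_ne h]
      exact tendsto_const_nhds
  have hcont := absi_trc hτ
  have htr : ∀ j x, τ (Function.update e i0 T j x) = t j x := by
    intro j x
    refine tendsto_nhds_unique ((hcont.tendsto _).comp (hlim j x)) ?_
    have h1 : (τ ∘ fun m => Function.update e i0 (σ m) j x) = fun _ => t j x := by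
      funext m
      exact (hI m).1.tr j x
    rw [h1]
    exact tendsto_const_nhds
  refine ⟨Function.update e i0 T, hτ, htr, ?_, ?_⟩
  · -- freeness
    intro w hw hm hc
    have hex : ∀ z : J × B, ∃ c : D z.1, z ∈ w → Function.update e i0 T z.1 c = z.2 := by
      intro z
      by_cases hz : z ∈ w
      · obtain ⟨c, hc'⟩ := (hm z hz).1
        exact ⟨c, fun _ => hc'⟩
      · exact ⟨0, fun h => absurd h hz⟩
    choose c hc' using hex
    have h1 : Tendsto (fun m => (w.map fun z => Function.update e i0 (σ m) z.1 (c z)).prod) atTop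
        (𝓝 ((w.map fun z => Function.update e i0 T z.1 (c z)).prod)) := by
      have := tendsto_list_prod (f := fun (z : J × B) (m : ℕ) =>
        Function.update e i0 (σ m) z.1 (c z)) (x := atTop)
        (a := fun z => Function.update e i0 T z.1 (c z)) w (fun z _ => hlim z.1 (c z))
      exact this
    have h2 : (w.map fun z => Function.update e i0 T z.1 (c z)) = w.map Prod.snd := by
      apply List.map_congr_left
      intro z hz
      exact hc' z hz
    rw [h2] at h1
    refine tendsto_nhds_unique ((hcont.tendsto _).comp h1) ?_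
    have h3 : (τ ∘ fun m => (w.map fun z => Function.update e i0 (σ m) z.1 (c z)).prod)
        = fun _ => 0 := by
      funext m
      have h4 := (hI m).1.free (w.map fun z =>
        ((Sum.inl z.1 : J ⊕ ℕ), Function.update e i0 (σ m) z.1 (c z))) (by simpa using hw) ?_ ?_
      · rw [List.map_map] at h4
        exact h4
      · intro z' hz'
        obtain ⟨z, hz, rfl⟩ := List.mem_map.1 hz'
        refine ⟨⟨c z, rfl⟩, ?_⟩
        show τ (Function.update e i0 (σ m) z.1 (c z)) = 0
        rw [(hI m).1.tr z.1 (c z), ← htr z.1 (c z), hc' z hz]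
        exact (hm z hz).2
      · rw [List.isChain_map]
        refine hc.imp ?_
        intro x y hxy h5
        exact hxy (Sum.inl.inj h5)
    rw [h3]
    exact tendsto_const_nhds
  · -- generation
    let C : ℕ → StarSubalgebra ℂ B := fun m =>
      (StarAlgebra.adjoin ℂ (⋃ j, Set.range (Function.update e i0 (σ m) j))).topologicalClosure
    have hC1 : ∀ m, C m ≤ C (m + 1) := by
      intro m
      apply StarSubalgebra.topologicalClosure_minimal _ (StarSubalgebra.isClosed_topologicalClosure _)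
      apply StarAlgebra.adjoin_le
      intro y hy
      obtain ⟨j, x, rfl⟩ := Set.mem_iUnion.1 hy
      by_cases h : j = i0
      · subst h
        rw [Function.update_self]
        exact (hS m).2.2.1 x
      · rw [Function.update_of_ne h]
        apply StarSubalgebra.le_topologicalClosure
        apply StarAlgebra.subset_adjoin
        refine Set.mem_iUnion.2 ⟨j, x, ?_⟩
        rw [Function.update_of_ne h]
    have hC2 : Monotone C := monotone_nat_of_le_succ hC1
    have hC3 : ∀ y ∈ StarAlgebra.adjoin ℂ ((⋃ j, Set.range (e j)) ∪ ⋃ n, Set.range (f n)),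
        ∃ m, y ∈ C m := by
      intro y hy
      induction hy using StarAlgebra.adjoin_induction with
      | mem y hy =>
        rcases hy with hy | hy
        · obtain ⟨j, x, rfl⟩ := Set.mem_iUnion.1 hy
          refine ⟨0, ?_⟩
          apply StarSubalgebra.le_topologicalClosure
          apply StarAlgebra.subset_adjoin
          refine Set.mem_iUnion.2 ⟨j, x, ?_⟩
          rw [hσ0, Function.update_eq_self]
        · obtain ⟨n, x, rfl⟩ := Set.mem_iUnion.1 hy
          exact ⟨n + 1, (hS n).2.2.2 x⟩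
      | algebraMap r => exact ⟨0, StarSubalgebra.algebraMap_mem _ r⟩
      | add x y hx hy ihx ihy =>
        obtain ⟨m1, h1⟩ := ihx
        obtain ⟨m2, h2⟩ := ihy
        exact ⟨max m1 m2, add_mem (hC2 (le_max_left _ _) h1) (hC2 (le_max_right _ _) h2)⟩
      | mul x y hx hy ihx ihy =>
        obtain ⟨m1, h1⟩ := ihx
        obtain ⟨m2, h2⟩ := ihy
        exact ⟨max m1 m2, mul_mem (hC2 (le_max_left _ _) h1) (hC2 (le_max_right _ _) h2)⟩
      | star x hx ihx =>
        obtain ⟨m1, h1⟩ := ihx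
        exact ⟨m1, star_mem h1⟩
    rw [eq_top_iff]
    intro y _
    rw [absi_mem]
    intro η hη
    obtain ⟨k, hk⟩ := exists_nat_one_div_lt (half_pos hη)
    obtain ⟨i, hi'⟩ := hb.exists_dist_lt y (half_pos hη)
    rw [dist_eq_norm] at hi'
    have hη2 : 0 < ηs k := by
      show 0 < 1 / ((k : ℝ) + 1)
      positivity
    have hbi : b i ∈ (StarAlgebra.adjoin ℂ
        ((⋃ j, Set.range (e j)) ∪ ⋃ n, Set.range (f n))).topologicalClosure := by
      rw [hR.gen]
      trivial
    rw [absi_mem] at hbi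
    obtain ⟨q, hq, hq2⟩ := hbi (ηs k / 2) (half_pos hη2)
    obtain ⟨m0, hm0⟩ := hC3 q hq
    let m := max m0 (max i k)
    have hqm : q ∈ C m := hC2 (le_max_left _ _) hm0
    rw [absi_mem] at hqm
    obtain ⟨p, hp, hp2⟩ := hqm (ηs k / 2) (half_pos hη2)
    have hnear : absi_near e i0 (b i) (ηs k) (σ m) := by
      refine ⟨p, hp, ?_⟩
      have h1 : b i - p = (b i - q) + (q - p) := by abel
      rw [h1]
      have h2 := norm_add_le (b i - q) (q - p)
      linarith
    have hmem : (i, k) ∈ S m := by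
      simp only [S, Finset.mem_product, Finset.mem_range]
      have h1 : max i k ≤ m := le_max_right _ _
      have h2 := le_max_left i k
      have h3 := le_max_right i k
      omega
    obtain ⟨p', hp', hp3⟩ := (hI m).2.2 (i, k) hmem hnear T (hT2 m)
    refine ⟨p', hp', ?_⟩
    have h1 : y - p' = (y - b i) + (b i - p') := by abel
    rw [h1]
    have h2 := norm_add_le (y - b i) (b i - p')
    have h3 : ηs k < η / 2 := hk
    simp only at hp3
    linarith

end Pool.Agent.H923R2.FZ.T_ABSI
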