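import Mathlib
import Pool.Agent.H922R2.OPC.Stubs

set_option autoImplicit false

open MvPolynomial

namespace Pool.Agent.H641R2.OPC_WLM

open Pool.Agent.H922R2.OPC

theorem ge_zero {R : Type} [CommRing R] (w : ℤ) : Ge w (0 : LaurentSeries R) := fun _ _ => rfl

theorem ge_mono {R : Type} [CommRing R] {u w : ℤ} (h : u ≤ w) {g : LaurentSeries R}
    (hg : Ge w g) : Ge u g := fun i hi => hg i (lt_of_lt_of_le hi h)

theorem ge_add {R : Type} [CommRing R] {w : ℤ} {g h : LaurentSeries R} (hg : Ge w g)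
    (hh : Ge w h) : Ge w (g + h) := fun i hi => by
  rw [HahnSeries.coeff_add, hg i hi, hh i hi, add_zero]

theorem ge_neg {R : Type} [CommRing R] {w : ℤ} {g : LaurentSeries R} (hg : Ge w g) :
    Ge w (-g) := fun i hi => by
  rw [HahnSeries.coeff_neg, hg i hi, neg_zero]

theorem ge_sum {R ι : Type} [CommRing R] {w : ℤ} (s : Finset ι) (g : ι → LaurentSeries R)
    (hg : ∀ i ∈ s, Ge w (g i)) : Ge w (∑ i ∈ s, g i) := by
  classical
  induction s using Finset.induction_on with
  | empty => rw [Finset.sum_empty]; exact ge_zero w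
  | insert i s hi ih =>
    rw [Finset.sum_insert hi]
    exact ge_add (hg i (Finset.mem_insert_self i s))
      (ih fun j hj => hg j (Finset.mem_insert_of_mem hj))

theorem ge_pow (hM : S_MUL) {R : Type} [CommRing R] {u : ℤ} {g : LaurentSeries R} (hg : Ge u g)
    (n : ℕ) : Ge (n * u) (g ^ n) ∧ (g ^ n).coeff (n * u) = (g.coeff u) ^ n := by
  induction n with
  | zero =>
    rw [pow_zero, pow_zero]
    constructor
    · intro i hi
      have h1 : (1 : LaurentSeries R) = HahnSeries.single 0 1 := rfl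
      rw [h1, HahnSeries.coeff_single_of_ne]
      intro h
      subst h
      simp at hi
    · have h1 : (1 : LaurentSeries R) = HahnSeries.single 0 1 := rfl
      rw [h1]
      simp
  | succ n ih =>
    have h1 := hM R (n * u) u (g ^ n) g ih.1 hg
    have h2 : ((n + 1 : ℕ) : ℤ) * u = n * u + u := by push_cast; ring
    rw [h2, pow_succ, pow_succ, ← ih.2]
    exact h1

section
variable {k : Type} [Field k]

theorem psi_single {a b : ℕ} {Ψ : L k →+* L k} (hb : 0 < b) (hΨ : IsPsi a b Ψ) (i : ℤ) (j : ℕ)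
    (c : k) : Ψ (HahnSeries.single i (Polynomial.monomial j c)) =
      HahnSeries.single (b * i + a * j) (Polynomial.monomial j c) := by
  classical
  have hb' : (b : ℤ) ≠ 0 := by exact_mod_cast hb.ne'
  apply HahnSeries.ext
  funext v
  ext j'
  rw [hΨ, HahnSeries.coeff_single, HahnSeries.coeff_single]
  by_cases hj : j = j'
  · subst hj
    by_cases h : v = b * i + a * j
    · have h1 : v - a * j = b * i := by rw [h]; ring
      rw [if_pos h, h1, if_pos (dvd_mul_right _ _), Int.mul_ediv_cancel_left _ hb', if_pos rfl]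
    · rw [if_neg h]
      split_ifs with h1 h2
      · exfalso
        apply h
        rw [← h2, Int.mul_ediv_cancel' h1]
        ring
      · rfl
      · rfl
  · have h0 : (Polynomial.monomial j c).coeff j' = 0 := by
      rw [Polynomial.coeff_monomial, if_neg hj]
    split_ifs <;> simp [h0]

theorem ge_rot {a b : ℕ} {Ψ : L k →+* L k} (hΨ : IsPsi a b Ψ) {w : ℤ} {g : L k} (c : k)
    (h : Ge w (Ψ g)) : Ge w (Ψ (rot c g)) := by
  intro v hv
  ext j
  have h1 := congrArg (fun q : Polynomial k => q.coeff j) (h v hv)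
  simp only [Polynomial.coeff_zero] at h1
  rw [hΨ] at h1
  rw [hΨ, Polynomial.coeff_zero]
  split_ifs with h2
  · rw [if_pos h2] at h1
    show (Polynomial.C (c ^ ((v - a * j) / b)) * g.coeff ((v - a * j) / b)).coeff j = 0
    rw [Polynomial.coeff_C_mul, h1, mul_zero]
  · rfl

theorem algMap (c : k) : algebraMap k (L k) c =
    HahnSeries.single 0 (Polynomial.monomial 0 c) := by
  rw [HahnSeries.algebraMap_apply']
  have h1 : algebraMap k (PowerSeries (Polynomial k)) c = PowerSeries.C (Polynomial.C c) :=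
    PowerSeries.algebraMap_apply
  rw [h1, HahnSeries.ofPowerSeries_C]
  rfl

theorem lam_eq : (lam : L k) = HahnSeries.single 0 (Polynomial.monomial 1 1) := rfl

theorem tp_eq (i : ℤ) : (tp i : L k) = HahnSeries.single i (Polynomial.monomial 0 1) := rfl

/-- expansion of the value of a polynomial -/
theorem expand (E : B k →ₐ[k] L k) (Ψ : L k →+* L k) (f g : B k) :
    Ψ (E (aeval ![X 0, f] g)) = ∑ m ∈ g.support,
      Ψ (algebraMap k (L k) (g.coeff m)) * (Ψ (E (X 0)) ^ (m 0) * Ψ (E f) ^ (m 1)) := by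
  rw [MvPolynomial.aeval_def, MvPolynomial.eval₂_eq', map_sum, map_sum]
  refine Finset.sum_congr rfl fun m _ => ?_
  rw [Fin.prod_univ_two, map_mul, map_mul, map_mul, map_mul, map_pow, map_pow, map_pow, map_pow,
    AlgHom.commutes]
  rfl

theorem expand2 {a b n : ℕ} {Ψ : L k →+* L k} (hb : 0 < b) (hΨ : IsPsi a b Ψ)
    (E : B k →ₐ[k] L k) (f g : B k) (h0 : E (X 0) = tp (-(n : ℤ))) (h1 : E f = lam) :
    Ψ (E (aeval ![X 0, f] g)) = ∑ m ∈ g.support,
      HahnSeries.single (-((b * n : ℕ) : ℤ) * (m 0 : ℤ) + a * (m 1 : ℤ))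
        (Polynomial.monomial (m 1) (g.coeff m)) := by
  rw [expand]
  refine Finset.sum_congr rfl fun m _ => ?_
  rw [h0, h1, algMap, lam_eq, tp_eq, psi_single hb hΨ, psi_single hb hΨ, psi_single hb hΨ,
    HahnSeries.single_pow, HahnSeries.single_pow, HahnSeries.single_mul_single,
    HahnSeries.single_mul_single, Polynomial.monomial_pow, Polynomial.monomial_pow,
    Polynomial.monomial_mul_monomial, Polynomial.monomial_mul_monomial]
  congr 1
  · congr 1
    push_cast
    simp only [nsmul_eq_mul]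
    ring
  · simp

theorem supp_bound {a b n : ℕ} {Ψ : L k →+* L k} (hb : 0 < b) (hn : 0 < n) (hΨ : IsPsi a b Ψ)
    (E : B k →ₐ[k] L k) (f g : B k) (h0 : E (X 0) = tp (-(n : ℤ))) (h1 : E f = lam) (M : ℤ)
    (hg : Ge M (Ψ (E (aeval ![X 0, f] g)))) (m : Fin 2 →₀ ℕ) (hm : m ∈ g.support) :
    M ≤ -((b * n : ℕ) : ℤ) * (m 0 : ℤ) + a * (m 1 : ℤ) := by
  classical
  by_contra hlt
  push Not at hlt
  have h2 := hg _ hlt
  rw [expand2 hb hΨ E f g h0 h1] at h2
  have h3 := congrArg (fun q : Polynomial k => q.coeff (m 1)) h2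
  simp only [Polynomial.coeff_zero] at h3
  have h4 : ((∑ m' ∈ g.support,
      HahnSeries.single (-((b * n : ℕ) : ℤ) * (m' 0 : ℤ) + a * (m' 1 : ℤ))
        (Polynomial.monomial (m' 1) (g.coeff m')) : L k).coeff
        (-((b * n : ℕ) : ℤ) * (m 0 : ℤ) + a * (m 1 : ℤ))).coeff (m 1) = g.coeff m := by
    rw [HahnSeries.coeff_sum, Polynomial.finsetSum_coeff, Finset.sum_eq_single m]
    · rw [HahnSeries.coeff_single_same, Polynomial.coeff_monomial, if_pos rfl]
    · intro m' _ hne
      rw [HahnSeries.coeff_single]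
      split_ifs with h5
      · rw [Polynomial.coeff_monomial]
        split_ifs with h6
        · exfalso
          apply hne
          rw [h6] at h5
          have h7 : (0 : ℤ) < ((b * n : ℕ) : ℤ) := by
            exact_mod_cast Nat.mul_pos hb hn
          have h8 : ((b * n : ℕ) : ℤ) * (m' 0 : ℤ) = ((b * n : ℕ) : ℤ) * (m 0 : ℤ) := by
            linarith
          have h9 : (m' 0 : ℤ) = (m 0 : ℤ) := mul_left_cancel₀ h7.ne' h8
          ext i
          fin_cases i
          · exact_mod_cast h9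
          · exact h6
        · rfl
      · rfl
    · intro h
      exact absurd hm h
  rw [h4] at h3
  exact (MvPolynomial.mem_support_iff.1 hm) h3

theorem push {a b n : ℕ} {Ψ : L k →+* L k} (hM : S_MUL) (hb : 0 < b) (hΨ : IsPsi a b Ψ)
    (E : B k →ₐ[k] L k) (f g : B k) (h0 : Ge (-((b * n : ℕ) : ℤ)) (Ψ (E (X 0))))
    (h1 : Ge (a : ℤ) (Ψ (E f))) (M : ℤ)
    (hm : ∀ m ∈ g.support, M ≤ -((b * n : ℕ) : ℤ) * (m 0 : ℤ) + a * (m 1 : ℤ)) :
    Ge M (Ψ (E (aeval ![X 0, f] g))) := by
  rw [expand]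
  apply ge_sum
  intro m hms
  have h2 := (ge_pow hM h0 (m 0)).1
  have h3 := (ge_pow hM h1 (m 1)).1
  have h4 := (hM _ _ _ _ _ h2 h3).1
  have h5 : Ge 0 (Ψ (algebraMap k (L k) (g.coeff m))) := by
    rw [algMap, psi_single hb hΨ]
    intro i hi
    rw [HahnSeries.coeff_single_of_ne]
    intro h
    rw [h] at hi
    simp at hi
  have h6 := (hM _ _ _ _ _ h5 h4).1
  refine ge_mono ?_ h6
  have h7 := hm m hms
  linarith

end

theorem rot_one {k : Type} [Field k] (h : L k) : rot 1 h = h := by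
  apply HahnSeries.ext
  funext i
  show Polynomial.C ((1 : k) ^ i) * h.coeff i = h.coeff i
  rw [one_zpow, map_one, one_mul]

theorem wlm (k : Type) [Field k] [IsAlgClosed k] [CharZero k] (hMON : S_MON k) : S_WLM k := by
  intro hM hROT hEVF hINJ hCHR hPRG D a b Ψ hb hΨ hP hf h w hw
  have hOP := D.h₂
  have hn : 0 < D.n₂ := hOP.1
  have hE0 : D.e₂ (X 0) = tp (-(D.n₂ : ℤ)) := by
    show aeval ![tp (-(D.n₂ : ℤ)), D.φ₂] (X 0) = _
    rw [aeval_X]
    rfl
  have hEf : D.e₂ D.f₂ = lam := hEVF _ _ _ _ hOP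
  choose g hg using hCHR hROT hEVF hMON _ _ _ _ hOP h
  have hinj := hINJ hEVF hMON _ _ _ _ hOP
  -- the characteristic polynomial
  set s : ℕ → L k := fun i => rot (D.ζ₂ ^ i) (D.e₂ h) with hs
  set pol : Polynomial (L k) := ∏ i ∈ Finset.range D.n₂, (Polynomial.X - Polynomial.C (s i))
    with hpol
  have hcoef : ∀ l, pol.coeff l = D.e₂ (aeval ![X 0, D.f₂] (g l)) := hg
  have hmon : pol.Monic :=
    Polynomial.monic_prod_of_monic _ _ fun i _ => Polynomial.monic_X_sub_C _
  have hdeg : pol.natDegree = D.n₂ := by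
    rw [hpol, Polynomial.natDegree_prod_of_monic _ _ fun i _ => Polynomial.monic_X_sub_C _]
    simp
  have hroot : pol.eval (D.e₂ h) = 0 := by
    rw [hpol, Polynomial.eval_prod]
    apply Finset.prod_eq_zero (Finset.mem_range.2 hn)
    rw [Polynomial.eval_sub, Polynomial.eval_X, Polynomial.eval_C, hs]
    simp only [pow_zero]
    rw [rot_one, sub_self]
  have hrel : h ^ D.n₂ + ∑ l ∈ Finset.range D.n₂, aeval ![X 0, D.f₂] (g l) * h ^ l = 0 := by
    apply hinj
    have h1 : D.e₂ (h ^ D.n₂ + ∑ l ∈ Finset.range D.n₂, aeval ![X 0, D.f₂] (g l) * h ^ l) = 0 := by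
      rw [Polynomial.eval_eq_sum_range, hdeg, Finset.sum_range_succ] at hroot
      have h2 : pol.coeff D.n₂ = 1 := by
        rw [← hdeg]
        exact hmon
      rw [h2, one_mul] at hroot
      rw [map_add, map_sum, map_pow, add_comm]
      rw [← hroot]
      congr 1
      refine Finset.sum_congr rfl fun l _ => ?_
      rw [map_mul, map_pow, ← hcoef]
    have h3 : D.e₂ = ev D.n₂ D.φ₂ := rfl
    rw [← h3, h1, map_zero]
  -- valuations of the coefficients
  have hco : ∀ l ≤ D.n₂, Ge (((D.n₂ : ℤ) - l) * w) (Ψ (D.e₂ (aeval ![X 0, D.f₂] (g l)))) := by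
    intro l hl
    have h1 := hPRG hM D.n₂ (fun i => Ψ (s i)) w (fun i _ => ge_rot hΨ _ hw) l hl
    have h2 : (∏ i ∈ Finset.range D.n₂, (Polynomial.X - Polynomial.C (Ψ (s i)))) =
        pol.map Ψ := by
      rw [hpol, Polynomial.map_prod]
      refine Finset.prod_congr rfl fun i _ => ?_
      rw [Polynomial.map_sub, Polynomial.map_X, Polynomial.map_C]
    rw [h2, Polynomial.coeff_map, hcoef] at h1
    exact h1
  let E' : B k →ₐ[k] L k := D.e₁.comp D.F
  have hX0 : E' (X 0) = D.e₁ D.P := by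
    show D.e₁ (D.F (X 0)) = _
    congr 1
    show aeval ![D.P, D.Q] (X 0) = _
    rw [aeval_X]
    rfl
  have hco' : ∀ l ≤ D.n₂, Ge (((D.n₂ : ℤ) - l) * w) (Ψ (E' (aeval ![X 0, D.f₂] (g l)))) := by
    intro l hl
    apply push (n := D.n₂) hM hb hΨ E' D.f₂ (g l)
    · rw [hX0]; exact hP
    · exact hf
    · intro m hm
      exact supp_bound hb hn hΨ D.e₂ D.f₂ (g l) hE0 hEf _ (hco l hl) m hm
  -- the end
  show Ge w (Ψ (E' h))
  by_contra hcon
  set Y : L k := Ψ (E' h) with hY
  have hrel' : Y ^ D.n₂ =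
      -∑ l ∈ Finset.range D.n₂, Ψ (E' (aeval ![X 0, D.f₂] (g l))) * Y ^ l := by
    have h1 := congrArg (fun q => Ψ (E' q)) hrel
    simp only [map_add, map_sum, map_mul, map_pow, map_zero] at h1
    rw [eq_neg_iff_add_eq_zero]
    exact h1
  unfold Ge at hcon
  push Not at hcon
  obtain ⟨i, hi, hi0⟩ := hcon
  have hY0 : Y ≠ 0 := by
    intro h0
    rw [h0] at hi0
    exact hi0 rfl
  have hord : Y.order < w := by
    refine lt_of_le_of_lt ?_ hi
    by_contra hlt
    push Not at hlt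
    exact hi0 (HahnSeries.coeff_eq_zero_of_lt_order hlt)
  have hGe : Ge Y.order Y := fun j hj => HahnSeries.coeff_eq_zero_of_lt_order hj
  have hne : Y.coeff Y.order ≠ 0 := fun h0 => hY0 (HahnSeries.coeff_order_eq_zero.1 h0)
  have hpw := (ge_pow hM hGe D.n₂).2
  have hzero : (Y ^ D.n₂).coeff (D.n₂ * Y.order) = 0 := by
    rw [hrel']
    have h1 : Ge (D.n₂ * Y.order + 1)
        (-∑ l ∈ Finset.range D.n₂, Ψ (E' (aeval ![X 0, D.f₂] (g l))) * Y ^ l) := by
      apply ge_neg
      apply ge_sum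
      intro l hl
      have hl' := Finset.mem_range.1 hl
      have h2 := (hM _ _ _ _ _ (hco' l hl'.le) (ge_pow hM hGe l).1).1
      refine ge_mono ?_ h2
      have h3 : (1 : ℤ) ≤ (D.n₂ : ℤ) - l := by
        have : (l : ℤ) < D.n₂ := by exact_mod_cast hl'
        linarith
      have h4 : Y.order + 1 ≤ w := hord
      nlinarith
    exact h1 _ (by linarith)
  rw [hzero] at hpw
  exact hne (pow_eq_zero_iff (hn.ne') |>.1 hpw.symm)

end Pool.Agent.H641R2.OPC_WLM
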